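import Pool.Agent.H12.Alt.Model
import Mathlib.RingTheory.TwoSidedIdeal.Operations
import Mathlib.RingTheory.TwoSidedIdeal.Kernel

/-!
# The doubled commutator ideal of the nucleus of a free alternative algebra is not nuclear

We disprove the inclusion `2 ZN(Alt[X]) ⊆ N(Alt[X])` over every commutative ring `Φ` in which
`2 ^ 12 * 3 ^ 3 * 5` is not zero, and for every set `X` with at least nine elements.
-/

namespace Pool.Agent.Results.MP_b862e0_al.NotNuclear

open Pool.Agent.H12.Alt

noncomputable section

/-- The two-sided ideal of the free nonassociative `Φ`-algebra (without identity) on `X` generated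
by all associators `(a, a, b)` and `(b, a, a)`. The generating set is closed under multiplication
by scalars, hence so is the ideal (see `altIdeal_smul`). -/
def altIdeal (Φ : Type*) [CommRing Φ] (X : Type*) :
    TwoSidedIdeal (FreeNonUnitalNonAssocAlgebra Φ X) :=
  TwoSidedIdeal.span {z | ∃ a b : FreeNonUnitalNonAssocAlgebra Φ X,
    z = associator a a b ∨ z = associator b a a}

/-- The free alternative `Φ`-algebra (without identity) on `X`. -/
abbrev Alt (Φ : Type*) [CommRing Φ] (X : Type*) : Type _ := (altIdeal Φ X).ringCon.Quotient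

/-- The nucleus of a nonassociative ring. -/
def nucleus (A : Type*) [NonUnitalNonAssocRing A] : Set A :=
  {n | ∀ a b : A, associator n a b = 0 ∧ associator a n b = 0 ∧ associator a b n = 0}

/-- The two-sided ideal generated by all commutators `n a - a n`, with `n` in the nucleus. -/
def ZN (A : Type*) [NonUnitalNonAssocRing A] : TwoSidedIdeal A :=
  TwoSidedIdeal.span {z | ∃ n ∈ nucleus A, ∃ a : A, z = n * a - a * n}

section basic
variable {Φ : Type*} [CommRing Φ] {X : Type*}

/-- The projection from the free nonassociative algebra. -/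
def mk : FreeNonUnitalNonAssocAlgebra Φ X →ₙ+* Alt Φ X where
  toFun u := (u : (altIdeal Φ X).ringCon.Quotient)
  map_mul' _ _ := rfl
  map_zero' := rfl
  map_add' _ _ := rfl

theorem mk_surj (u : Alt Φ X) : ∃ v : FreeNonUnitalNonAssocAlgebra Φ X, mk v = u :=
  Quotient.exists_rep u

theorem mk_zero_of_mem {u : FreeNonUnitalNonAssocAlgebra Φ X} (h : u ∈ altIdeal Φ X) :
    (mk u : Alt Φ X) = 0 := by
  change (u : (altIdeal Φ X).ringCon.Quotient) = ((0 : FreeNonUnitalNonAssocAlgebra Φ X) :
    (altIdeal Φ X).ringCon.Quotient)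
  exact (RingCon.eq _).mpr ((TwoSidedIdeal.mem_iff _ _).mp h)

theorem map_associator {S T : Type*} [NonUnitalNonAssocRing S] [NonUnitalNonAssocRing T]
    (φ : S →ₙ+* T) (a b c : S) : φ (associator a b c) = associator (φ a) (φ b) (φ c) := by
  simp only [associator_apply, map_sub, map_mul]

/-- `Alt Φ X` is left alternative -/
theorem alt_l (a b : Alt Φ X) : associator a a b = 0 := by
  obtain ⟨u, rfl⟩ := mk_surj a
  obtain ⟨v, rfl⟩ := mk_surj b
  rw [← map_associator]
  exact mk_zero_of_mem (TwoSidedIdeal.subset_span ⟨u, v, Or.inl rfl⟩)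

/-- `Alt Φ X` is right alternative -/
theorem alt_r (a b : Alt Φ X) : associator b a a = 0 := by
  obtain ⟨u, rfl⟩ := mk_surj a
  obtain ⟨v, rfl⟩ := mk_surj b
  rw [← map_associator]
  exact mk_zero_of_mem (TwoSidedIdeal.subset_span ⟨u, v, Or.inr rfl⟩)

/-- The ideal `altIdeal Φ X` is closed under multiplication by scalars. -/
theorem altIdeal_smul (r : Φ) {z : FreeNonUnitalNonAssocAlgebra Φ X} (hz : z ∈ altIdeal Φ X) :
    r • z ∈ altIdeal Φ X := by
  have hs : ∀ a b c : FreeNonUnitalNonAssocAlgebra Φ X,
      r • associator a b c = associator (r • a) b c ∧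
      r • associator a b c = associator a b (r • c) := by
    intro a b c
    simp only [associator_apply, smul_sub, smul_mul_assoc, mul_smul_comm, and_self]
  unfold altIdeal at hz
  induction hz using TwoSidedIdeal.span_induction with
  | mem x hx =>
    obtain ⟨a, b, rfl | rfl⟩ := hx
    · rw [(hs a a b).2]
      exact TwoSidedIdeal.subset_span ⟨a, r • b, Or.inl rfl⟩
    · rw [(hs b a a).1]
      exact TwoSidedIdeal.subset_span ⟨a, r • b, Or.inr rfl⟩
  | zero => rw [smul_zero]; exact TwoSidedIdeal.zero_mem _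
  | add x y _ _ h1 h2 => rw [smul_add]; exact TwoSidedIdeal.add_mem _ h1 h2
  | neg x _ h1 => rw [smul_neg]; exact TwoSidedIdeal.neg_mem _ h1
  | left_absorb a x _ h1 => rw [← mul_smul_comm]; exact TwoSidedIdeal.mul_mem_left _ _ _ h1
  | right_absorb b x _ h1 => rw [← smul_mul_assoc]; exact TwoSidedIdeal.mul_mem_right _ _ _ h1

/-- The universal property: a homomorphism of the free nonassociative algebra to an alternative
`Φ`-algebra factors through `Alt Φ X`. -/
theorem exists_lift (B : Type*) [NonUnitalNonAssocRing B] [Module Φ B] [IsScalarTower Φ B B]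
    [SMulCommClass Φ B B] (hl : ∀ a b : B, associator a a b = 0)
    (hr : ∀ a b : B, associator b a a = 0) (f : FreeNonUnitalNonAssocAlgebra Φ X →ₙₐ[Φ] B) :
    ∃ g : Alt Φ X →ₙ+* B, ∀ u, g (mk u) = f u := by
  have h0 : altIdeal Φ X ≤ TwoSidedIdeal.ker f := by
    refine TwoSidedIdeal.span_le.mpr ?_
    rintro z ⟨a, b, rfl | rfl⟩
    · refine (TwoSidedIdeal.mem_ker _).mpr ?_
      have : f (associator a a b) = associator (f a) (f a) (f b) := by
        simp only [associator_apply, map_sub, map_mul]
      rw [this, hl]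
    · refine (TwoSidedIdeal.mem_ker _).mpr ?_
      have : f (associator b a a) = associator (f b) (f a) (f a) := by
        simp only [associator_apply, map_sub, map_mul]
      rw [this, hr]
  have h1 : ∀ u v : FreeNonUnitalNonAssocAlgebra Φ X, (altIdeal Φ X).ringCon u v → f u = f v := by
    intro u v h
    have h2 := h0 (((altIdeal Φ X).rel_iff u v).mp h)
    have h3 := (TwoSidedIdeal.mem_ker _).mp h2
    rw [map_sub] at h3
    exact sub_eq_zero.mp h3
  refine ⟨{ toFun := fun u => Quotient.lift (s := (altIdeal Φ X).ringCon.toSetoid) f h1 u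
            map_zero' := map_zero f
            map_mul' := ?_
            map_add' := ?_ }, fun u => rfl⟩
  · intro u v
    obtain ⟨u, rfl⟩ := mk_surj u
    obtain ⟨v, rfl⟩ := mk_surj v
    exact map_mul f u v
  · intro u v
    obtain ⟨u, rfl⟩ := mk_surj u
    obtain ⟨v, rfl⟩ := mk_surj v
    exact map_add f u v

end basic

/-- **Theorem.** Let `Φ` be a commutative ring in which `2 ^ 12 * 3 ^ 3 * 5` is not zero and `X` a
set with at least nine elements. Then there is an element `z` in the ideal of the free alternative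
algebra `Alt Φ X` generated by the commutators of its nucleus with it, such that `2 z` is not in
the nucleus. -/
theorem result (Φ : Type*) [CommRing Φ] (hΦ : ((2 ^ 12 * 3 ^ 3 * 5 : ℕ) : Φ) ≠ 0)
    (X : Type*) (e : Fin 9 ↪ X) :
    ∃ z ∈ ZN (Alt Φ X), z + z ∉ nucleus (Alt Φ X) := by
  classical
  -- the generators
  let x : Fin 9 → Alt Φ X := fun i => mk (FreeNonUnitalNonAssocAlgebra.of Φ (e i))
  -- the nuclear element
  set n0 : Alt Φ X := nuc (fun i : Fin 5 => x (Fin.castLE (by decide) i)) (x 8) with hn0
  set n : Alt Φ X := (24 : ℤ) • n0 with hn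
  have h1 : ∀ a b : Alt Φ X, associator n a b = 0 := by
    intro a b
    rw [hn, zsmul_assoc]
    exact nuc_assoc alt_l alt_r _ _ a b
  have hnuc : n ∈ nucleus (Alt Φ X) := by
    intro a b
    have h2 : ∀ a b : Alt Φ X, associator a n b = 0 := by
      intro a b
      rw [alt_left alt_l n a b, h1, neg_zero]
    refine ⟨h1 a b, h2 a b, ?_⟩
    rw [alt_right alt_r a n b, h2, neg_zero]
  refine ⟨(n * x 8 - x 8 * n) * x 5, ?_, ?_⟩
  · exact TwoSidedIdeal.mul_mem_right _ _ _ (TwoSidedIdeal.subset_span ⟨n, hnuc, x 8, rfl⟩)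
  · intro hz
    have h3 := (hz (x 6) (x 7)).1
    -- the homomorphism to the model
    let val : Fin 9 → envA Φ := fun i =>
      if h : (i : ℕ) < 8 then ⟨mX Φ ⟨i, h⟩, mX_mem Φ _⟩ else ⟨mY Φ, mY_mem Φ⟩
    let f := FreeNonUnitalNonAssocAlgebra.lift Φ (Function.extend e val 0)
    obtain ⟨g, hg⟩ := exists_lift (X := X) (envA Φ) (envA_left Φ) (envA_right Φ) f
    let s : envA Φ →ₙ+* TR (E8 Φ) Sp :=
      { toFun := fun a => a.1
        map_mul' := fun _ _ => rfl
        map_zero' := rfl
        map_add' := fun _ _ => rfl }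
    let ψ : Alt Φ X →ₙ+* TR (E8 Φ) Sp := s.comp g
    have hx : ∀ i, ψ (x i) = (val i).1 := by
      intro i
      change (g (mk (FreeNonUnitalNonAssocAlgebra.of Φ (e i)))).1 = (val i).1
      rw [hg, FreeNonUnitalNonAssocAlgebra.lift_of_apply, e.injective.extend_apply]
    have hx5 : ψ (x 5) = mX Φ 5 := hx 5
    have hx6 : ψ (x 6) = mX Φ 6 := hx 6
    have hx7 : ψ (x 7) = mX Φ 7 := hx 7
    have hx8 : ψ (x 8) = mY Φ := hx 8
    have hxi : ∀ i : Fin 5, ψ (x (Fin.castLE (by decide) i)) =
        mX Φ (Fin.castLE (by decide) i) := by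
      intro i
      fin_cases i
      · exact hx 0
      · exact hx 1
      · exact hx 2
      · exact hx 3
      · exact hx 4
    have hψn : ψ n = mN Φ := by
      rw [hn, map_zsmul, hn0, nuc_map, hx8, mN]
      congr 2
      funext i
      exact hxi i
    have h4 := congrArg ψ h3
    rw [map_associator, map_add, map_mul, map_sub, map_mul, map_mul, hψn, hx5, hx6, hx7, hx8,
      map_zero] at h4
    refine model_ne Φ ?_ h4
    intro h5
    apply hΦ
    rw [← h5]
    norm_num

end

end Pool.Agent.Results.MP_b862e0_al.NotNuclear
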